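import Mathlib
import Pool.Agent.Helper83.CHI.Cor
import Pool.Agent.Helper40.CX.H83VN.Map
import Pool.Agent.Helper40.CX.H83VN.Ctc
import Pool.Agent.Helper40.CX.Good2

namespace CX

/-!
# The contact data

`V₀` is a four-vector over `k`, belonging to the points `T i`. The pencil is `∏ (X - T i) + s q`.
The roots of the pencil are `t i` (for `s` in a field containing `k`). The contact data are a
polynomial `q`, and `V`, `Xp`, `Op` depending polynomially on `s`, such that `V` satisfies the
equations of a four-vector belonging to the `t i`, and `Op ^ 2` differs from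
`Xp ^ 3 - 3 A Xp - 2 Q (4)` only by a multiple of `s ^ (6 N)`. Moreover `q (0) = 0`, so the product
of the `t i` is constant.
-/

set_option linter.unusedSectionVars false

namespace Pool.Agent.Helper83.CHI

open VC VF Function Polynomial
open Pool.Agent.Helper83.VN Pool.Agent.Helper51.EW

universe u

/-- The contact data. -/
structure Con {k : Type u} [Field k] {W : Wei k} (D : Cor W) {n : ℕ} (T : Fin n → k) (V₀ : V4 k)
    (ξ η : k) where
  q : k[X]
  V : V4 k[X]
  Xp : k[X]
  Op : k[X]
  c : k
  hq : q.degree < n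
  q0 : q.coeff 0 = 0
  hV : V.map (evalRingHom 0) = V₀
  hXp : Xp.eval 0 = ξ
  hOp : Op.eval 0 = η
  dOp : Op.natDegree ≤ 3 * W.N
  ne : q ≠ 0 ∨ V ≠ V₀.map C ∨ Xp ≠ C ξ ∨ Op ≠ C η
  dg : Dg n V
  form : ∀ (K : Type u) [Field K] [Algebra k K] (s : K) (t : Fin n → K), Pen T q s t →
    (V.ev s).form = ∏ i, (C (D.b (t i) ^ 2) - C (D.d (t i) / 4) * X)
  Q0 : ∀ (K : Type u) [Field K] [Algebra k K] (s : K) (t : Fin n → K), Pen T q s t →
    (V.ev s).Q.eval 0 = ∏ i, D.b (t i)
  eqn : ∀ (K : Type u) [Field K] [Algebra k K] (s : K) (t : Fin n → K), Pen T q s t →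
    aeval s Op ^ 2 = aeval s Xp ^ 3 - 3 * (∏ i, D.a (t i)) * aeval s Xp -
      2 * (V.ev s).Q.eval 4 + algebraMap k K c * s ^ (6 * W.N)

/-- The product of the roots of the pencil is constant. -/
lemma prc_pen {k : Type u} [Field k] {n : ℕ} {g : k} {T : Fin n → k} (hT : Prc g T) {q : k[X]}
    (hq : q.coeff 0 = 0) {K : Type u} [Field K] [Algebra k K] {s : K} {t : Fin n → K}
    (h : Pen T q s t) : Prc g t := by
  have h1 := congrArg (Polynomial.eval 0) h
  simp only [eval_prod, eval_sub, eval_X, eval_C, eval_add, eval_mul, zero_sub] at h1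
  have h2 : (q.map (algebraMap k K)).eval 0 = 0 := by
    rw [← coeff_zero_eq_eval_zero, coeff_map, hq, map_zero]
  have h3 : ((∏ i, (X - C (T i))).map (algebraMap k K)).eval 0 =
      ∏ i, (-(algebraMap k K (T i))) := by
    rw [Polynomial.map_prod, eval_prod]
    refine Finset.prod_congr rfl fun i _ => ?_
    simp
  rw [h2, h3, mul_zero, add_zero, Finset.prod_neg, Finset.prod_neg] at h1
  have h4 : ((-1 : K) ^ (Finset.univ : Finset (Fin n)).card) ≠ 0 := pow_ne_zero _ (by norm_num)
  have h5 := mul_left_cancel₀ h4 h1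
  unfold Prc at hT ⊢
  rw [h5, ← map_prod, hT, Algebra.algebraMap_self, RingHom.id_apply]

end Pool.Agent.Helper83.CHI

end CX
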