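import Mathlib
import Pool.Agent.Helper83.CHI.Fld
import Pool.Agent.Helper40.CX.Good2

namespace CX

/-!
# Block VN-DV: the divisor of `(y - Op) / (y + Op)` for `C.c ≠ 0`

`(y - Op) (y + Op) = - c s ^ (6 N)`. If `s` is regular with nonzero value, both factors are regular
(`y ^ 2` is) and their product is a unit. If `s` has a pole, divide both factors by `s ^ (3 N)`
(`Op / s ^ (3 N)` is regular, `C.dOp`; `(y / s ^ (3 N)) ^ 2` is regular): the product is `- c`.
If `s` has the value `0` and `y` the value `η`, then `y + Op` has the value `2 η ≠ 0`, so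
`ord (y - Op) = 6 N ord s`.
-/

set_option linter.unusedSectionVars false

namespace Pool.Agent.Helper83.CHI

open VC VF Function Polynomial
open Pool.Agent.Helper83.VN Pool.Agent.Helper51.EW Pool.Agent.Helper51.VN

universe u

variable {k : Type u} [Field k] [IsAlgClosed k] [Good k] {W : Wei k} {D : Cor W} {n : ℕ}
  {T : Fin n → k} {V₀ : V4 k} {ξ η : k} {C : Con D T V₀ ξ η} {c : List (Ed (Fin n) k)} {μ : k}

/-- both factors become regular with unit product after division by `σ` -/
private lemma unit43 {K : Type u} [Field K] {R : ValuationSubring K} {P Q σ : K} (hσ : σ ≠ 0)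
    (hP0 : P ≠ 0) (hQ0 : Q ≠ 0) (hP : P / σ ∈ R) (hQ : Q / σ ∈ R)
    (hPQ : ((P / σ) * (Q / σ))⁻¹ ∈ R) : P / Q ∈ R ∧ (P / Q)⁻¹ ∈ R := by
  constructor
  · have h := R.mul_mem _ _ (R.mul_mem _ _ hP hP) hPQ
    have e : P / σ * (P / σ) * ((P / σ) * (Q / σ))⁻¹ = P / Q := by
      field_simp
    rwa [e] at h
  · have h := R.mul_mem _ _ (R.mul_mem _ _ hQ hQ) hPQ
    have e : Q / σ * (Q / σ) * ((P / σ) * (Q / σ))⁻¹ = (P / Q)⁻¹ := by
      field_simp
    rwa [e] at h

private lemma ord_unit43 {K : Type u} [Field K] [Algebra k K] (hK : IsFunctionField k K)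
    (w : Place k K) {u : K} (h0 : u ≠ 0) (h1 : u ∈ w.ring) (h2 : u⁻¹ ∈ w.ring) :
    ord w.ring u = 0 := by
  have a1 := (ord_nonneg_iff hK w h0).2 h1
  have a2 := (ord_nonneg_iff hK w (inv_ne_zero h0)).2 h2
  rw [ord_inv hK w h0] at a2
  omega

private lemma poly_div43 {K : Type u} [Field K] [Algebra k K] (w : Place k K) {s : K}
    (hs0 : s ≠ 0) (hs : s⁻¹ ∈ w.ring) (p : k[X]) {m : ℕ} (hp : p.natDegree ≤ m) :
    aeval s p / s ^ m ∈ w.ring := by
  rw [Polynomial.aeval_eq_sum_range' (Nat.lt_succ_of_le hp), Finset.sum_div]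
  refine sum_mem fun i hi => ?_
  have him : i ≤ m := Nat.lt_succ_iff.1 (Finset.mem_range.1 hi)
  have e : p.coeff i • s ^ i / s ^ m = algebraMap k K (p.coeff i) * s⁻¹ ^ (m - i) := by
    rw [Algebra.smul_def, inv_pow, mul_div_assoc]
    congr 1
    rw [div_eq_iff (pow_ne_zero m hs0), eq_comm, inv_mul_eq_iff_eq_mul₀ (pow_ne_zero _ hs0),
      ← pow_add]
    congr 1
    omega
  rw [e]
  exact w.ring.mul_mem _ _ (w.algebraMap_mem _) (pow_mem hs _)

theorem Fl1.dv {K : Type u} [Field K] [Algebra k K] (F : Fl1 C K) (hN : 1 ≤ W.N) (hc : C.c ≠ 0)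
    (hη : η ≠ 0) :
    F.y - aeval F.s C.Op ≠ 0 ∧ F.y + aeval F.s C.Op ≠ 0 ∧
    (∀ w : Place k K, ¬ IsRes w F.s 0 →
      ord w.ring ((F.y - aeval F.s C.Op) / (F.y + aeval F.s C.Op)) = 0) ∧
    ∀ w : Place k K, IsRes w F.s 0 →
      (IsRes w F.y η → ord w.ring ((F.y - aeval F.s C.Op) / (F.y + aeval F.s C.Op)) =
        6 * W.N * ord w.ring F.s) ∧
      (IsRes w F.y (-η) → ord w.ring ((F.y - aeval F.s C.Op) / (F.y + aeval F.s C.Op)) =
        -(6 * W.N * ord w.ring F.s)) := by
  have hK := F.hK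
  have hs0 : F.s ≠ 0 := by
    intro h
    have := F.tr
    rw [h] at this
    exact this isAlgebraic_zero
  have hc' : algebraMap k K C.c ≠ 0 := (_root_.map_ne_zero _).mpr hc
  obtain ⟨O, hO⟩ : ∃ O, O = aeval F.s C.Op := ⟨_, rfl⟩
  have hy := F.hy
  rw [← hO] at hy ⊢
  have hprod : (F.y - O) * (F.y + O) = -(algebraMap k K C.c) * F.s ^ (6 * W.N) := by
    linear_combination hy
  have hprod0 : (F.y - O) * (F.y + O) ≠ 0 := by
    rw [hprod]
    exact mul_ne_zero (neg_ne_zero.2 hc') (pow_ne_zero _ hs0)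
  have hP0 : F.y - O ≠ 0 := left_ne_zero_of_mul hprod0
  have hQ0 : F.y + O ≠ 0 := right_ne_zero_of_mul hprod0
  have hcinv : ∀ w : Place k K, (-(algebraMap k K C.c))⁻¹ ∈ w.ring := by
    intro w
    rw [← map_neg, ← map_inv₀]
    exact w.algebraMap_mem _
  refine ⟨hP0, hQ0, ?_, ?_⟩
  · intro w hw
    rw [isRes_zero_iff, ValuationSubring.mem_nonunits_iff_or] at hw
    push Not at hw
    obtain ⟨-, hsinv⟩ := hw
    have key : (F.y - O) / (F.y + O) ∈ w.ring ∧ ((F.y - O) / (F.y + O))⁻¹ ∈ w.ring := by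
      by_cases hsR : F.s ∈ w.ring
      · have hOR : O ∈ w.ring := by
          obtain ⟨e, he⟩ := exists_res hK hsR
          rw [hO]
          exact (he.poly (p := C.Op)).mem
        have hyR : F.y ∈ w.ring := by
          apply mem_of_pow two_ne_zero
          rw [hy]
          exact w.ring.sub_mem (pow_mem hOR 2)
            (w.ring.mul_mem _ _ (w.algebraMap_mem _) (pow_mem hsR _))
        refine unit43 (σ := 1) one_ne_zero hP0 hQ0 ?_ ?_ ?_
        · rw [div_one]; exact w.ring.sub_mem hyR hOR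
        · rw [div_one]; exact w.ring.add_mem _ _ hyR hOR
        · rw [div_one, div_one, hprod, mul_inv]
          refine w.ring.mul_mem _ _ (hcinv w) ?_
          rw [← inv_pow]
          exact pow_mem hsinv _
      · have hσ0 : F.s ^ (3 * W.N) ≠ 0 := pow_ne_zero _ hs0
        have hOR : O / F.s ^ (3 * W.N) ∈ w.ring := by
          rw [hO]
          exact poly_div43 w hs0 hsinv C.Op C.dOp
        have hs6 : F.s ^ (6 * W.N) = (F.s ^ (3 * W.N)) ^ 2 := by
          rw [← pow_mul]
          congr 1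
          ring
        have hyR : F.y / F.s ^ (3 * W.N) ∈ w.ring := by
          apply mem_of_pow two_ne_zero
          have e : (F.y / F.s ^ (3 * W.N)) ^ 2 =
              (O / F.s ^ (3 * W.N)) ^ 2 - algebraMap k K C.c := by
            rw [div_pow, div_pow, hy, hs6]
            field_simp
          rw [e]
          exact w.ring.sub_mem (pow_mem hOR 2) (w.algebraMap_mem _)
        refine unit43 (σ := F.s ^ (3 * W.N)) hσ0 hP0 hQ0 ?_ ?_ ?_
        · rw [sub_div]; exact w.ring.sub_mem hyR hOR
        · rw [add_div]; exact w.ring.add_mem _ _ hyR hOR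
        · have e : (F.y - O) / F.s ^ (3 * W.N) * ((F.y + O) / F.s ^ (3 * W.N)) =
              -(algebraMap k K C.c) := by
            rw [div_mul_div_comm, hprod, hs6]
            field_simp
          rw [e]
          exact hcinv w
    exact ord_unit43 hK w (div_ne_zero hP0 hQ0) key.1 key.2
  · intro w hw
    have hOη : IsRes w O η := by
      have := hw.poly (p := C.Op)
      rw [C.hOp, ← hO] at this
      exact this
    have hsum : ord w.ring (F.y - O) + ord w.ring (F.y + O) = 6 * W.N * ord w.ring F.s := by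
      rw [← ord_mul hK w hP0 hQ0, hprod,
        ord_mul hK w (neg_ne_zero.2 hc') (pow_ne_zero _ hs0), ← map_neg,
        ord_algebraMap hK w (neg_ne_zero.2 hc), VP.ord_pow hK w hs0]
      push_cast
      ring
    have hdiv : ord w.ring ((F.y - O) / (F.y + O)) =
        ord w.ring (F.y - O) - ord w.ring (F.y + O) := by
      rw [div_eq_mul_inv, ord_mul hK w hP0 (inv_ne_zero hQ0), ord_inv hK w hQ0]
      ring
    have hval : ∀ {u : K} {d : k}, IsRes w u d → d ≠ 0 → ord w.ring u = 0 := by
      intro u d hu hd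
      obtain ⟨h0, hi⟩ := hu.inv_mem hd
      exact ord_unit43 hK w h0 hu.mem hi
    constructor
    · intro hyη
      have h2 : ord w.ring (F.y + O) = 0 := by
        refine hval (hyη.add hOη) ?_
        rw [← two_mul]
        exact mul_ne_zero two_ne_zero hη
      rw [hdiv, h2, sub_zero]
      rw [h2, add_zero] at hsum
      exact hsum
    · intro hyη
      have h2 : ord w.ring (F.y - O) = 0 := by
        refine hval (hyη.sub hOη) ?_
        have : -η - η = -(2 * η) := by ring
        rw [this]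
        exact neg_ne_zero.2 (mul_ne_zero two_ne_zero hη)
      rw [hdiv, h2, zero_sub]
      rw [h2, zero_add] at hsum
      rw [hsum]

end Pool.Agent.Helper83.CHI

end CX
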