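import Mathlib
import Pool.Agent.Helper83.CHI.Fld
import Pool.Agent.Helper40.CX.H51EW.Field
import Pool.Agent.Helper40.CX.Good2

namespace CX

/-!
# Block VN-F1EX: the first function field exists

Template: `Pool.Agent.Helper83.KV.main_field`. Work in `Om k` (an algebraic closure of `k(s)`),
`s = zO k`: the pencil polynomial is monic of degree `n` and splits (`exists_fin_roots` in
`Helper51/EW/Field.lean`); choose square roots `κ i`, a square root `y` of the right hand side (for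
`C.c = 0` take `y = aeval s C.Op`), a root `m` of `m ^ 2 - Xp m + A` and a square root `μ` of it.
`A ≠ 0` because `A = aeval s (nm D.al T x)` (`nm_val`, `x i = C.q.coeff i`) and
`(nm D.al T x).eval 0 = ∏ D.a (T i) ≠ 0` (`nm_zero`, `aeval_ne_zero`). Then `exists_ff` gives a
function field `K` with an embedding into `Om k`, and all identities descend because the embedding
is injective.
-/

set_option linter.unusedSectionVars false

namespace Pool.Agent.Helper83.CHI

open VC VF Function Polynomial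
open Pool.Agent.Helper83.VN Pool.Agent.Helper51.EW Pool.Agent.Helper51.VN

universe u

variable {k : Type u} [Field k] [IsAlgClosed k] [Good k] {W : Wei k} {D : Cor W} {n : ℕ}
  {T : Fin n → k} {V₀ : V4 k} {ξ η : k} {C : Con D T V₀ ξ η} {c : List (Ed (Fin n) k)} {μ : k}

/-- Everything in the algebraic closure of `k(s)`. -/
private lemma om_fl1 (C : Con D T V₀ ξ η) (ha : ∀ i, D.a (T i) ≠ 0) :
    ∃ (t κ : Fin n → KV.Om k) (y μ : KV.Om k), Pen T C.q (KV.zO k) t ∧
      (∀ i, κ i ^ 2 = D.a (t i) ^ 3) ∧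
      y ^ 2 = aeval (KV.zO k) C.Op ^ 2 - algebraMap k (KV.Om k) C.c * KV.zO k ^ (6 * W.N) ∧
      (C.c = 0 → y = aeval (KV.zO k) C.Op) ∧ μ ≠ 0 ∧
      μ ^ 2 + (∏ i, D.a (t i)) / μ ^ 2 = aeval (KV.zO k) C.Xp := by
  obtain ⟨z, hz⟩ : ∃ z, z = KV.zO k := ⟨_, rfl⟩
  have hztr : Transcendental k z := by rw [hz]; exact KV.zO_tr
  rw [← hz]
  have hz0 : z ≠ 0 := by
    intro h0
    apply hztr
    rw [h0]
    exact isAlgebraic_zero
  have hchar : CX.Good (KV.Om k) := CX.Good.ext k
  -- the pencil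
  obtain ⟨P, hP⟩ : ∃ P : (KV.Om k)[X], P = (∏ i, (X - Polynomial.C (T i))).map
    (algebraMap k (KV.Om k)) + Polynomial.C z * C.q.map (algebraMap k (KV.Om k)) := ⟨_, rfl⟩
  have h0mon : ((∏ i, (X - Polynomial.C (T i))).map (algebraMap k (KV.Om k))).Monic :=
    (monic_prod_of_monic _ _ fun i _ => monic_X_sub_C _).map _
  have h0deg : ((∏ i, (X - Polynomial.C (T i))).map (algebraMap k (KV.Om k))).degree =
      (n : WithBot ℕ) := by
    rw [degree_map, degree_prod]
    simp
  have hlt : (Polynomial.C z * C.q.map (algebraMap k (KV.Om k))).degree <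
      ((∏ i, (X - Polynomial.C (T i))).map (algebraMap k (KV.Om k))).degree := by
    rw [h0deg]
    rw [degree_C_mul hz0, degree_map]
    exact C.hq
  have hPmon : P.Monic := by
    rw [hP]
    exact h0mon.add_of_left hlt
  have hPdeg : P.natDegree = n := by
    apply natDegree_eq_of_degree_eq_some
    rw [hP, degree_add_eq_left_of_degree_lt hlt, h0deg]
  obtain ⟨t, ht⟩ := exists_fin_roots hPmon hPdeg (IsAlgClosed.splits P)
  have hpen : Pen T C.q z t := by
    unfold Pen
    rw [← ht, hP]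
  -- the product of the `a (t i)`
  have hq : C.q = ∑ i : Fin n, Polynomial.C (C.q.coeff i) * X ^ (i : ℕ) := by
    rw [Fin.sum_univ_eq_sum_range (fun i => Polynomial.C (C.q.coeff i) * X ^ i) n]
    by_cases h0 : C.q = 0
    · simp [h0]
    · exact as_sum_range_C_mul_X_pow' C.q ((natDegree_lt_iff_degree_lt h0).2 C.hq)
  have hA : ∏ i, D.a (t i) ≠ 0 := by
    have h1 : aeval z (nm D.al T (fun i : Fin n => C.q.coeff i)) = ∏ i, aeval (t i) D.al := by
      apply nm_val
      rw [← hq]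
      exact hpen
    have h2 : ∏ i, D.a (t i) = aeval z (nm D.al T (fun i : Fin n => C.q.coeff i)) := h1.symm
    rw [h2]
    apply aeval_ne_zero hztr
    intro h3
    have h4 := nm_zero D.al T (fun i : Fin n => C.q.coeff i)
    rw [h3, eval_zero] at h4
    have h5 : ∏ i, D.al.eval (T i) = 0 := by
      rw [← h4.symm]
      simpa using h4.symm
    obtain ⟨i, _, hi⟩ := Finset.prod_eq_zero_iff.1 h5
    apply ha i
    unfold Cor.a
    rw [coe_aeval_eq_eval]
    exact hi
  have hκ : ∀ i, ∃ κ : KV.Om k, κ ^ 2 = D.a (t i) ^ 3 := fun i =>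
    IsAlgClosed.exists_pow_nat_eq _ two_pos
  choose κ hκ using hκ
  obtain ⟨y, hy, hyc⟩ : ∃ y : KV.Om k, y ^ 2 = aeval z C.Op ^ 2 -
      algebraMap k (KV.Om k) C.c * z ^ (6 * W.N) ∧ (C.c = 0 → y = aeval z C.Op) := by
    by_cases hc : C.c = 0
    · refine ⟨aeval z C.Op, ?_, fun _ => rfl⟩
      rw [hc]; simp
    · obtain ⟨y, hy⟩ := IsAlgClosed.exists_pow_nat_eq (aeval z C.Op ^ 2 -
        algebraMap k (KV.Om k) C.c * z ^ (6 * W.N)) (n := 2) two_pos
      exact ⟨y, hy, fun h0 => absurd h0 hc⟩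
  obtain ⟨x, hx⟩ : ∃ x, x = aeval z C.Xp := ⟨_, rfl⟩
  obtain ⟨A, hAA⟩ : ∃ A, A = ∏ i, D.a (t i) := ⟨_, rfl⟩
  rw [← hAA] at hA
  obtain ⟨e, he⟩ := IsAlgClosed.exists_pow_nat_eq (x ^ 2 - 4 * A) (n := 2) two_pos
  obtain ⟨m, hm⟩ : ∃ m, m = (x + e) / 2 := ⟨_, rfl⟩
  have hm2 : m ^ 2 + A = x * m := by
    rw [hm]
    linear_combination (norm := (field_simp; ring)) (1 / 4 : KV.Om k) * he
  have hm0 : m ≠ 0 := by
    rintro rfl
    apply hA
    linear_combination hm2
  obtain ⟨μ, hμ⟩ := IsAlgClosed.exists_pow_nat_eq m (n := 2) two_pos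
  have hμ0 : μ ≠ 0 := by
    rintro rfl
    apply hm0
    rw [← hμ]
    norm_num
  refine ⟨t, κ, y, μ, hpen, hκ, hy, hyc, hμ0, ?_⟩
  rw [hμ, ← hAA, ← hx]
  field_simp
  linear_combination hm2

theorem exists_fl1 (C : Con D T V₀ ξ η) (ha : ∀ i, D.a (T i) ≠ 0) :
    ∃ (K : Type u) (_ : Field K) (_ : Algebra k K), Nonempty (Fl1 C K) := by
  obtain ⟨t, κ, y, μ, hpen, hκ, hy, hyc, hμ, hξ⟩ := om_fl1 C ha
  obtain ⟨K, _, _, ι, s, b, hK, hs, hιs, hb⟩ :=
    KV.exists_ff (k := k) (Fin.append (Fin.append t κ) ![y, μ])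
  have hinj : Function.Injective ι := ι.toRingHom.injective
  obtain ⟨t', ht'⟩ : ∃ t' : Fin n → K, ∀ i, ι (t' i) = t i :=
    ⟨fun i => b (Fin.castAdd 2 (Fin.castAdd n i)), fun i => by
      rw [hb, Fin.append_left, Fin.append_left]⟩
  obtain ⟨κ', hκ'⟩ : ∃ κ' : Fin n → K, ∀ i, ι (κ' i) = κ i :=
    ⟨fun i => b (Fin.castAdd 2 (Fin.natAdd n i)), fun i => by
      rw [hb, Fin.append_left, Fin.append_right]⟩
  obtain ⟨y', hy'⟩ : ∃ y' : K, ι y' = y :=
    ⟨b (Fin.natAdd (n + n) 0), by rw [hb, Fin.append_right]; rfl⟩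
  obtain ⟨μ', hμ'⟩ : ∃ μ' : K, ι μ' = μ :=
    ⟨b (Fin.natAdd (n + n) 1), by rw [hb, Fin.append_right]; rfl⟩
  have hιa : ∀ p : Polynomial k, ι (aeval s p) = aeval (KV.zO k) p := by
    intro p
    rw [← aeval_algHom_apply, hιs]
  have hDa : ∀ i, ι (D.a (t' i)) = D.a (t i) := by
    intro i
    unfold Cor.a
    rw [← aeval_algHom_apply, ht']
  refine ⟨K, inferInstance, inferInstance, ⟨⟨hK, s, hs, t', κ', y', μ', ?_, ?_, ?_, ?_, ?_, ?_⟩⟩⟩
  · unfold Pen at hpen ⊢
    have hmi : Function.Injective (Polynomial.map ι.toRingHom) :=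
      Polynomial.map_injective _ hinj
    have hc : ι.toRingHom.comp (algebraMap k K) = algebraMap k (KV.Om k) := by
      ext x
      exact ι.commutes x
    apply hmi
    rw [Polynomial.map_add, Polynomial.map_mul, Polynomial.map_C, Polynomial.map_map,
      Polynomial.map_map, hc, Polynomial.map_prod]
    have h1 : ∀ i, (X - Polynomial.C (t' i)).map ι.toRingHom = X - Polynomial.C (t i) := by
      intro i
      rw [Polynomial.map_sub, Polynomial.map_X, Polynomial.map_C]
      congr 2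
      exact ht' i
    rw [Finset.prod_congr rfl fun i _ => h1 i, hpen]
    congr 3
    exact hιs.symm
  · intro i
    apply hinj
    rw [map_pow, map_pow, hκ', hDa, hκ]
  · apply hinj
    rw [map_sub, map_mul, map_pow, map_pow, map_pow, hy', hιa, hιs, AlgHom.commutes]
    exact hy
  · intro hc
    apply hinj
    rw [hy', hιa]
    exact hyc hc
  · intro h0
    apply hμ
    rw [← hμ', h0, map_zero]
  · apply hinj
    rw [map_add, map_div₀, map_pow, map_prod, hιa, hμ', Finset.prod_congr rfl fun i _ => hDa i]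
    exact hξ

end Pool.Agent.Helper83.CHI

end CX
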