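import Mathlib
import Pool.Agent.Helper83.CHI.Cor
import Pool.Agent.Helper40.CX.CHI.Defs
import Pool.Agent.Helper40.CX.H83EW.Red

namespace CX

/-!
# Project CHI: the standard coordinates

`IsStd D`: the coordinate `T` on the projective line is `u0 / u1`. For `D : Cor W` and
`D' : Cor (pull W m)` with this property `D'.a w = D.a (w ^ m)` and `D'.b w = D.b (w ^ m)`.
-/

set_option linter.unusedSectionVars false

namespace Pool.Agent.Helper83.CHI

open VC VF Function CX.CHI
open Pool.Agent.Helper83.VN Pool.Agent.Helper51.EW Pool.Agent.Helper51.VN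

universe u

/-- The coordinate is `u0 / u1`. -/
structure IsStd {k : Type u} [Field k] {W : Wei k} (D : Cor W) : Prop where
  e0 : D.e0 = ![0, 1]
  e1 : D.e1 = ![1, 0]

section

variable {k : Type u} [Field k] [Good k] {W : Wei k} {D : Cor W} {m : ℕ} {D' : Cor (pull W m)}
  {K : Type u} [Field K] [Algebra k K]

lemma IsStd.base (h : IsStd D) (T : K) : D.base T = ![T, 1] := by
  funext i
  unfold Cor.base
  rw [h.e0, h.e1]
  fin_cases i
  · change algebraMap k K 0 + T * algebraMap k K 1 = T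
    rw [map_zero, map_one, zero_add, mul_one]
  · change algebraMap k K 1 + T * algebraMap k K 0 = 1
    rw [map_zero, map_one, mul_zero, add_zero]

lemma std_pow (w : K) : (fun i => (![w, 1] : Fin 2 → K) i ^ m) = ![w ^ m, 1] := by
  funext i
  fin_cases i
  · rfl
  · change (1 : K) ^ m = 1
    exact one_pow m

lemma std_a (h : IsStd D) (h' : IsStd D') (w : K) : D'.a w = D.a (w ^ m) := by
  have hK : CX.Good K := CX.Good.ext k
  have e1 := D'.hA K w
  have e2 := D.hA K (w ^ m)
  have b1 := h'.base w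
  have b2 := h.base (w ^ m)
  unfold Cor.base at b1 b2
  rw [b1] at e1
  rw [b2, ← std_pow (m := m) w, ← aeval_expand] at e2
  have e3 : MvPolynomial.aeval ![w, 1] (pull W m).A =
    MvPolynomial.aeval ![w, 1] (MvPolynomial.expand m W.A) := rfl
  rw [e3, e2] at e1
  have h3 : (-3 : K) ≠ 0 := neg_ne_zero.mpr Good.three
  exact (mul_left_cancel₀ h3 e1).symm

lemma std_b (h : IsStd D) (h' : IsStd D') (w : K) : D'.b w = D.b (w ^ m) := by
  have hK : CX.Good K := CX.Good.ext k
  have e1 := D'.hB K w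
  have e2 := D.hB K (w ^ m)
  have b1 := h'.base w
  have b2 := h.base (w ^ m)
  unfold Cor.base at b1 b2
  rw [b1] at e1
  rw [b2, ← std_pow (m := m) w, ← aeval_expand] at e2
  have e3 : MvPolynomial.aeval ![w, 1] (pull W m).B =
    MvPolynomial.aeval ![w, 1] (MvPolynomial.expand m W.B) := rfl
  rw [e3, e2] at e1
  have h3 : (-2 : K) ≠ 0 := neg_ne_zero.mpr Good.two
  exact (mul_left_cancel₀ h3 e1).symm

lemma std_d (h : IsStd D) (h' : IsStd D') (w : K) : D'.d w = D.d (w ^ m) := by
  unfold Cor.d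
  rw [std_a h h', std_b h h']

end

section

variable {k : Type u} [Field k] [IsAlgClosed k] [Good k]

/-- A basis with `e0 + T e1 = (- T, 1)`. -/
private def bas83 (k : Type u) [Field k] : Helper83.EW.Bas k :=
  { e0 := ![0, 1], e1 := ![-1, 0], det := by
      change (0 : k) * 0 - 1 * (-1) = 1
      ring }

/-- The dehomogenisation. -/
private noncomputable def dh83 (F : MvPolynomial (Fin 2) k) : Polynomial k :=
  (Helper83.EW.deh (bas83 k) F).comp (-Polynomial.X)

private lemma aeval_dh83 (F : MvPolynomial (Fin 2) k) {K : Type u} [Field K] [Algebra k K]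
    (T : K) : Polynomial.aeval T (dh83 F) = MvPolynomial.aeval (fun i =>
      algebraMap k K ((![0, 1] : Fin 2 → k) i) + T * algebraMap k K ((![1, 0] : Fin 2 → k) i))
      F := by
  unfold dh83
  rw [Polynomial.aeval_comp, map_neg, Polynomial.aeval_X, Helper83.EW.aeval_deh]
  congr 2
  funext i
  fin_cases i
  · change algebraMap k K 0 + -T * algebraMap k K (-1) = algebraMap k K 0 + T * algebraMap k K 1
    rw [map_neg, map_one]
    ring
  · change algebraMap k K 1 + -T * algebraMap k K 0 = algebraMap k K 1 + T * algebraMap k K 0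
    rw [map_zero]
    ring

private lemma natDegree_dh83 {F : MvPolynomial (Fin 2) k} {n : ℕ} (hF : F.IsHomogeneous n) :
    (dh83 F).natDegree ≤ n := by
  unfold dh83
  refine Polynomial.natDegree_comp_le.trans ?_
  rw [Polynomial.natDegree_neg, Polynomial.natDegree_X, mul_one]
  exact Helper83.EW.natDegree_deh_le (bas83 k) hF

private lemma dh83_ne {F : MvPolynomial (Fin 2) k} {n : ℕ} (hF : F.IsHomogeneous n)
    (h0 : F ≠ 0) : dh83 F ≠ 0 := by
  intro h
  apply Helper83.EW.deh_ne_zero (bas83 k) hF h0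
  have h1 := congrArg (fun p => p.comp (-Polynomial.X)) h
  unfold dh83 at h1
  simpa [Polynomial.comp_assoc] using h1

theorem exists_std (W : Wei k) (hΔ : 4 * W.A ^ 3 + 27 * W.B ^ 2 ≠ 0) :
    ∃ D : Cor W, IsStd D := by
  have hA := W.hA
  have hB := W.hB
  have hΔh : (4 * W.A ^ 3 + 27 * W.B ^ 2).IsHomogeneous (12 * W.N) := by
    have h4 : (4 : MvPolynomial (Fin 2) k) = MvPolynomial.C 4 := (map_ofNat MvPolynomial.C 4).symm
    have h27 : (27 : MvPolynomial (Fin 2) k) = MvPolynomial.C 27 :=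
      (map_ofNat MvPolynomial.C 27).symm
    rw [h4, h27]
    have e1 := (MvPolynomial.isHomogeneous_C (Fin 2) (4 : k)).mul (hA.pow 3)
    have e2 := (MvPolynomial.isHomogeneous_C (Fin 2) (27 : k)).mul (hB.pow 2)
    rw [show 0 + 4 * W.N * 3 = 12 * W.N by ring] at e1
    rw [show 0 + 6 * W.N * 2 = 12 * W.N by ring] at e2
    exact e1.add e2
  have hf0 : dh83 (4 * W.A ^ 3 + 27 * W.B ^ 2) ≠ 0 := dh83_ne hΔh hΔ
  have hc : (1 / 108 : k) ≠ 0 := by norm_num
  refine ⟨{ e0 := ![0, 1], e1 := ![1, 0], det := ?_, al := Polynomial.C (-1 / 3) * dh83 W.A,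
            be := Polynomial.C (-1 / 2) * dh83 W.B, hA := ?_, hB := ?_,
            hD := ?_, dal := ?_, dbe := ?_ }, ⟨rfl, rfl⟩⟩
  · change (0 : k) * 0 - 1 * 1 ≠ 0
    norm_num
  · intro K _ _ T
    rw [map_mul, Polynomial.aeval_C, aeval_dh83]
    have : (-3 : K) * algebraMap k K (-1 / 3) = 1 := by
      have h6 : (-3 : K) = algebraMap k K (-3) := by rw [map_neg, map_ofNat]
      have h7 : (-3 : k) * (-1 / 3) = 1 := by
        field_simp
      rw [h6, ← map_mul, h7, map_one]
    rw [← mul_assoc, this, one_mul]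
  · intro K _ _ T
    rw [map_mul, Polynomial.aeval_C, aeval_dh83]
    have : (-2 : K) * algebraMap k K (-1 / 2) = 1 := by
      have h6 : (-2 : K) = algebraMap k K (-2) := by rw [map_neg, map_ofNat]
      have h7 : (-2 : k) * (-1 / 2) = 1 := by
        field_simp
      rw [h6, ← map_mul, h7, map_one]
    rw [← mul_assoc, this, one_mul]
  · have e1 : dh83 (4 * W.A ^ 3 + 27 * W.B ^ 2) = 4 * dh83 W.A ^ 3 + 27 * dh83 W.B ^ 2 := by
      unfold dh83 Helper83.EW.deh
      simp only [map_add, map_mul, map_pow, map_ofNat, Polynomial.add_comp, Polynomial.mul_comp,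
        Polynomial.pow_comp, Polynomial.ofNat_comp, Nat.cast_ofNat]
    have e4 : (4 : Polynomial k) = Polynomial.C 4 := (map_ofNat Polynomial.C 4).symm
    have e27 : (27 : Polynomial k) = Polynomial.C 27 := (map_ofNat Polynomial.C 27).symm
    have e7 : (Polynomial.C (-1 / 2) * dh83 W.B) ^ 2 -
        (Polynomial.C (-1 / 3) * dh83 W.A) ^ 3 = Polynomial.C (1 / 108) *
          dh83 (4 * W.A ^ 3 + 27 * W.B ^ 2) := by
      rw [e1, e4, e27, mul_pow, mul_pow, ← Polynomial.C_pow, ← Polynomial.C_pow, mul_add,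
        ← mul_assoc, ← mul_assoc, ← Polynomial.C_mul, ← Polynomial.C_mul]
      have hn2 : (2 : k) ≠ 0 := Good.two
      have hn3 : (3 : k) ≠ 0 := Good.three
      have h108 : (108 : k) = 2 ^ 2 * 3 ^ 3 := by norm_num
      have e5 : (-1 / 2 : k) ^ 2 = 1 / 108 * 27 := by
        rw [h108]
        field_simp
        norm_num
      have e6 : (-1 / 3 : k) ^ 3 = -(1 / 108 * 4) := by
        rw [h108]
        field_simp
        norm_num
      rw [e5, e6, Polynomial.C_neg]
      ring
    rw [e7]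
    exact mul_ne_zero (Polynomial.C_ne_zero.mpr hc) hf0
  · exact (Polynomial.natDegree_C_mul_le _ _).trans (natDegree_dh83 hA)
  · exact (Polynomial.natDegree_C_mul_le _ _).trans (natDegree_dh83 hB)

theorem cor_j {W : Wei k} (D : Cor W) {c c' : k} (hc : c ≠ 0 ∨ c' ≠ 0)
    (h : Polynomial.C c * D.be ^ 2 = Polynomial.C c' * D.al ^ 3) :
    ∃ c d : k, (c ≠ 0 ∨ d ≠ 0) ∧
      MvPolynomial.C c * W.A ^ 3 = MvPolynomial.C d * W.B ^ 2 := by
  refine ⟨-4 * c', 27 * c, ?_, ?_⟩
  · rcases hc with h0 | h0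
    · right
      exact mul_ne_zero (by norm_num) h0
    · left
      exact mul_ne_zero (by norm_num) h0
  · -- a basis of determinant one
    have hdet := D.det
    obtain ⟨δ, hδ⟩ : ∃ δ : k, δ = D.e0 0 * D.e1 1 - D.e0 1 * D.e1 0 := ⟨_, rfl⟩
    rw [← hδ] at hdet
    let E : Helper83.EW.Bas k :=
      { e0 := D.e0, e1 := fun i => δ⁻¹ * D.e1 i, det := by
          have h1 : δ⁻¹ * δ = 1 := inv_mul_cancel₀ hdet
          have h2 : D.e0 0 * (δ⁻¹ * D.e1 1) - D.e0 1 * (δ⁻¹ * D.e1 0) = δ⁻¹ * δ := by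
            rw [hδ]
            ring
          rw [h2, h1] }
    have hA := W.hA
    have hB := W.hB
    have hF : (MvPolynomial.C (-4 * c') * W.A ^ 3 - MvPolynomial.C (27 * c) * W.B ^ 2).IsHomogeneous
        (12 * W.N) := by
      have e1 := (MvPolynomial.isHomogeneous_C (Fin 2) (-4 * c')).mul (hA.pow 3)
      have e2 := (MvPolynomial.isHomogeneous_C (Fin 2) (27 * c)).mul (hB.pow 2)
      rw [show 0 + 4 * W.N * 3 = 12 * W.N by ring] at e1
      rw [show 0 + 6 * W.N * 2 = 12 * W.N by ring] at e2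
      exact e1.sub e2
    by_contra hne
    refine Helper83.EW.deh_ne_zero E hF (sub_ne_zero.mpr hne) ?_
    apply Polynomial.funext
    intro T
    rw [Polynomial.eval_zero, Helper83.EW.eval_deh]
    have e1 : (fun i => E.e0 i + T * E.e1 i) =
        (fun i => algebraMap k k (D.e0 i) + (T * δ⁻¹) * algebraMap k k (D.e1 i)) := by
      funext i
      change D.e0 i + T * (δ⁻¹ * D.e1 i) = D.e0 i + (T * δ⁻¹) * D.e1 i
      ring
    rw [e1]
    have e2 := D.hA k (T * δ⁻¹)
    have e3 := D.hB k (T * δ⁻¹)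
    rw [Polynomial.coe_aeval_eq_eval] at e2 e3
    simp only [map_sub, map_mul, map_pow, MvPolynomial.eval_C]
    have e2' : MvPolynomial.eval (fun i => algebraMap k k (D.e0 i) +
        (T * δ⁻¹) * algebraMap k k (D.e1 i)) W.A = -3 * Polynomial.eval (T * δ⁻¹) D.al := e2
    have e3' : MvPolynomial.eval (fun i => algebraMap k k (D.e0 i) +
        (T * δ⁻¹) * algebraMap k k (D.e1 i)) W.B = -2 * Polynomial.eval (T * δ⁻¹) D.be := e3
    rw [e2', e3']
    have e4 := congrArg (Polynomial.eval (T * δ⁻¹)) h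
    rw [Polynomial.eval_mul, Polynomial.eval_mul, Polynomial.eval_pow, Polynomial.eval_pow,
      Polynomial.eval_C, Polynomial.eval_C] at e4
    linear_combination (-108) * e4

end

end Pool.Agent.Helper83.CHI

end CX
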